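import Pool.Agent.H8.TX.Targets

/-! Board tx_modules, row CJX: the norms of the elements of a simple extension. -/

set_option autoImplicit false

open MvPolynomial
open Pool.Agent.H12.ZD (pmap)
open Pool.Agent.H18.HIT Pool.Agent.H18.HX Pool.Agent.H18.VZ
open Pool.Agent.H8.ZA (HFam Const NA)
open Pool.Agent.H8.TD (lc dg Wsp Cop dh)
open Pool.Agent.H8.TX

namespace Pool.Agent.H24.TX

/-- two ring homomorphisms which agree on `K₀` and at `x` agree on the extension -/
private theorem agree (K₀ : IntermediateField ℚ Qb) (x : Qb) (a b : Qb →+* Qb)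
    (h0 : ∀ z ∈ K₀, a z = b z) (hx : a x = b x) :
    ∀ z ∈ K₀ ⊔ IntermediateField.adjoin ℚ {x}, a z = b z := by
  let E : IntermediateField ℚ Qb :=
    { carrier := {z | a z = b z}
      mul_mem' := by
        intro z w hz hw
        show a (z * w) = b (z * w)
        rw [map_mul, map_mul, show a z = b z from hz, show a w = b w from hw]
      add_mem' := by
        intro z w hz hw
        show a (z + w) = b (z + w)
        rw [map_add, map_add, show a z = b z from hz, show a w = b w from hw]
      algebraMap_mem' := by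
        intro q
        show a (algebraMap ℚ Qb q) = b (algebraMap ℚ Qb q)
        rw [eq_ratCast (algebraMap ℚ Qb) q, map_ratCast, map_ratCast]
      inv_mem' := by
        intro z hz
        show a z⁻¹ = b z⁻¹
        rw [map_inv₀, map_inv₀, show a z = b z from hz] }
  have h1 : K₀ ≤ E := fun z hz => h0 z hz
  have h2 : IntermediateField.adjoin ℚ {x} ≤ E := by
    rw [IntermediateField.adjoin_simple_le_iff]
    exact hx
  intro z hz
  exact (sup_le h1 h2) hz

theorem pf_CJX : T_CJX := by
  classical
  intro K₀ r f u x σ hcf hf hfix hσx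
  refine ⟨le_sup_left, hfix, ?_⟩
  intro z hz
  -- the norm is fixed by all automorphisms over `K₀`
  have hfixed : ∀ τ : Qb ≃ₐ[K₀] Qb, τ (∏ j, σ j z) = ∏ j, σ j z := by
    intro τ
    have hτ0 : ∀ w ∈ K₀, τ w = w := by
      intro w hw
      exact τ.commutes ⟨w, hw⟩
    -- the multisets of the zeros
    have hms : (Finset.univ.val.map (fun j => τ (u j))) = (Finset.univ.val.map u) := by
      have h1 : f.map (τ : Qb →+* Qb) = f := by
        ext j
        rw [Polynomial.coeff_map]
        exact hτ0 _ (hcf j)
      have h2 : f = ((Finset.univ.val.map u).map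
          (fun a => Polynomial.X - Polynomial.C a)).prod := by
        rw [hf, Multiset.map_map]
        rfl
      have h3 : f.map (τ : Qb →+* Qb) = ((Finset.univ.val.map (fun j => τ (u j))).map
          (fun a => Polynomial.X - Polynomial.C a)).prod := by
        rw [hf, Polynomial.map_prod, Multiset.map_map]
        simp only [Polynomial.map_sub, Polynomial.map_X, Polynomial.map_C]
        rfl
      have h4 : (f.map (τ : Qb →+* Qb)).roots = f.roots := by rw [h1]
      rw [h3, Polynomial.roots_multiset_prod_X_sub_C] at h4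
      rw [h4, h2, Polynomial.roots_multiset_prod_X_sub_C]
    set G : Qb → Qb := fun y => if h : ∃ j, u j = y then σ h.choose z else 0 with hG
    have hGu : ∀ j, G (u j) = σ j z := by
      intro j
      have h : ∃ i, u i = u j := ⟨j, rfl⟩
      have h1 : G (u j) = σ h.choose z := by
        simp only [hG]
        rw [dif_pos h]
      rw [h1]
      refine agree K₀ x (σ h.choose : Qb →+* Qb) (σ j : Qb →+* Qb) ?_ ?_ z hz
      · intro w hw
        show σ h.choose w = σ j w
        rw [hfix _ w hw, hfix _ w hw]
      · show σ h.choose x = σ j x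
        rw [hσx, hσx, h.choose_spec]
    have hGτ : ∀ j, G (τ (u j)) = τ (σ j z) := by
      intro j
      have hmem : τ (u j) ∈ (Finset.univ.val.map u) := by
        rw [← hms]
        exact Multiset.mem_map.2 ⟨j, Finset.mem_univ j, rfl⟩
      obtain ⟨i, -, hi⟩ := Multiset.mem_map.1 hmem
      rw [← hi, hGu i]
      refine agree K₀ x (σ i : Qb →+* Qb) ((τ : Qb →+* Qb).comp (σ j : Qb →+* Qb)) ?_ ?_ z hz
      · intro w hw
        show σ i w = τ (σ j w)
        rw [hfix _ w hw, hfix _ w hw, hτ0 w hw]
      · show σ i x = τ (σ j x)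
        rw [hσx, hσx, hi]
    have e1 : ∏ j, σ j z = ((Finset.univ.val.map u).map G).prod := by
      rw [Multiset.map_map]
      refine (Finset.prod_congr rfl ?_ : ∏ j, σ j z = ∏ j, (G ∘ u) j)
      intro j _
      exact (hGu j).symm
    have e2 : ∏ j, τ (σ j z) = ((Finset.univ.val.map (fun j => τ (u j))).map G).prod := by
      rw [Multiset.map_map]
      refine (Finset.prod_congr rfl ?_ : ∏ j, τ (σ j z) = ∏ j, (G ∘ (fun j => τ (u j))) j)
      intro j _
      exact (hGτ j).symm
    rw [map_prod, e2, hms, ← e1]
  have halg : Algebra.IsAlgebraic K₀ Qb := Algebra.IsAlgebraic.tower_top (K := ℚ) K₀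
  have hcl : IsAlgClosure K₀ Qb := ⟨inferInstance, halg⟩
  have hnor : Normal K₀ Qb := IsAlgClosure.normal K₀ Qb
  have hsep : Algebra.IsSeparable K₀ Qb := Algebra.IsAlgebraic.isSeparable_of_perfectField
  have hgal : IsGalois K₀ Qb := ⟨⟩
  have h1 := (InfiniteGalois.mem_bot_iff_fixed (k := K₀) (K := Qb) (∏ j, σ j z)).2 hfixed
  rw [IntermediateField.mem_bot] at h1
  obtain ⟨w, hw⟩ := h1
  rw [← hw]
  exact w.2

end Pool.Agent.H24.TX
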