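import Pool.Agent.H8.TX.Targets

/-! Board tx_modules, row GSX: the coefficients of a polynomial and its zeros. -/

set_option autoImplicit false

open MvPolynomial
open Pool.Agent.H12.ZD (pmap)
open Pool.Agent.H18.HIT Pool.Agent.H18.HX Pool.Agent.H18.VZ
open Pool.Agent.H8.ZA (HFam Const NA)
open Pool.Agent.H8.TD (lc dg Wsp Cop dh)
open Pool.Agent.H8.TX

namespace Pool.Agent.H24.TX

private theorem prod_ge_one (s : Multiset ℝ) (h : ∀ x ∈ s, (1 : ℝ) ≤ x) : 1 ≤ s.prod := by
  induction s using Multiset.induction_on with
  | empty => simp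
  | cons a s ih =>
    rw [Multiset.prod_cons]
    have h1 := h a (Multiset.mem_cons_self a s)
    have h2 := ih (fun x hx => h x (Multiset.mem_cons_of_mem hx))
    nlinarith

section

variable {K : Type} [Field K] (v : AbsoluteValue K ℝ)

private theorem v_one_zero_le (x : K) (hx : x = 0 ∨ x = 1) : v x ≤ 1 := by
  rcases hx with rfl | rfl
  · rw [map_zero]; norm_num
  · rw [map_one]

private theorem coeff_bound (s : Multiset K) :
    ∀ j, v (((s.map (fun a => Polynomial.X - Polynomial.C a)).prod).coeff j) ≤
      2 ^ (Multiset.card s) * (s.map (fun a => max 1 (v a))).prod := by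
  induction s using Multiset.induction_on with
  | empty =>
    intro j
    simp only [Multiset.map_zero, Multiset.prod_zero, Multiset.card_zero, pow_zero, mul_one]
    rw [Polynomial.coeff_one]
    refine v_one_zero_le v _ ?_
    split
    · right; rfl
    · left; rfl
  | cons a s ih =>
    intro j
    rw [Multiset.map_cons, Multiset.prod_cons, Multiset.map_cons, Multiset.prod_cons,
      Multiset.card_cons]
    set h := (s.map (fun a => Polynomial.X - Polynomial.C a)).prod with hh
    set M := (s.map (fun a => max 1 (v a))).prod with hM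
    have hM1 : 1 ≤ M := by
      refine prod_ge_one _ ?_
      intro x hx
      obtain ⟨b, -, rfl⟩ := Multiset.mem_map.1 hx
      exact le_max_left _ _
    have hprev : v (if j = 0 then 0 else h.coeff (j - 1)) ≤ 2 ^ (Multiset.card s) * M := by
      split
      · rw [map_zero]; positivity
      · exact ih _
    have hc : ((Polynomial.X - Polynomial.C a) * h).coeff j =
        (if j = 0 then 0 else h.coeff (j - 1)) - a * h.coeff j := by
      rw [sub_mul, Polynomial.coeff_sub, Polynomial.coeff_C_mul]
      congr 1
      cases j with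
      | zero => simp
      | succ j => simp [Polynomial.coeff_X_mul]
    rw [hc]
    have h1 : v ((if j = 0 then 0 else h.coeff (j - 1)) - a * h.coeff j) ≤
        v (if j = 0 then 0 else h.coeff (j - 1)) + v (a * h.coeff j) := v.sub_le_add _ _
    have h2 : v (a * h.coeff j) ≤ max 1 (v a) * (2 ^ (Multiset.card s) * M) := by
      rw [map_mul]
      exact mul_le_mul (le_max_right _ _) (ih j) (apply_nonneg v _) (by positivity)
    have h3 : 2 ^ (Multiset.card s) * M ≤ max 1 (v a) * (2 ^ (Multiset.card s) * M) := by
      have : (1 : ℝ) ≤ max 1 (v a) := le_max_left _ _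
      have h4 : 0 ≤ 2 ^ (Multiset.card s) * M := by positivity
      nlinarith
    calc _ ≤ v (if j = 0 then 0 else h.coeff (j - 1)) + v (a * h.coeff j) := h1
      _ ≤ max 1 (v a) * (2 ^ (Multiset.card s) * M) +
          max 1 (v a) * (2 ^ (Multiset.card s) * M) := by linarith
      _ = 2 ^ (Multiset.card s + 1) * (max 1 (v a) * M) := by ring

private theorem coeff_bound_na (hv : ∀ a b : K, v (a + b) ≤ max (v a) (v b)) (s : Multiset K) :
    ∀ j, v (((s.map (fun a => Polynomial.X - Polynomial.C a)).prod).coeff j) ≤
      (s.map (fun a => max 1 (v a))).prod := by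
  induction s using Multiset.induction_on with
  | empty =>
    intro j
    simp only [Multiset.map_zero, Multiset.prod_zero]
    rw [Polynomial.coeff_one]
    refine v_one_zero_le v _ ?_
    split
    · right; rfl
    · left; rfl
  | cons a s ih =>
    intro j
    rw [Multiset.map_cons, Multiset.prod_cons, Multiset.map_cons, Multiset.prod_cons]
    set h := (s.map (fun a => Polynomial.X - Polynomial.C a)).prod with hh
    set M := (s.map (fun a => max 1 (v a))).prod with hM
    have hM1 : 1 ≤ M := by
      refine prod_ge_one _ ?_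
      intro x hx
      obtain ⟨b, -, rfl⟩ := Multiset.mem_map.1 hx
      exact le_max_left _ _
    have hprev : v (if j = 0 then 0 else h.coeff (j - 1)) ≤ M := by
      split
      · rw [map_zero]; positivity
      · exact ih _
    have hc : ((Polynomial.X - Polynomial.C a) * h).coeff j =
        (if j = 0 then 0 else h.coeff (j - 1)) + -(a * h.coeff j) := by
      rw [sub_mul, Polynomial.coeff_sub, Polynomial.coeff_C_mul, sub_eq_add_neg]
      congr 1
      cases j with
      | zero => simp
      | succ j => simp [Polynomial.coeff_X_mul]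
    rw [hc]
    have h2 : v (-(a * h.coeff j)) ≤ max 1 (v a) * M := by
      rw [v.map_neg, map_mul]
      exact mul_le_mul (le_max_right _ _) (ih j) (apply_nonneg v _) (by positivity)
    have h3 : M ≤ max 1 (v a) * M := by
      have : (1 : ℝ) ≤ max 1 (v a) := le_max_left _ _
      nlinarith
    refine (hv _ _).trans (max_le (hprev.trans h3) h2)

end

theorem pf_GSX : T_GSX := by
  classical
  intro v n r c ψ hcn hdvd
  set g : Polynomial Qb := ∑ j ∈ Finset.range (n + 1), Polynomial.C (c j) * Polynomial.X ^ j with hg
  have hcoeff : ∀ j, g.coeff j = if j ≤ n then c j else 0 := by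
    intro j
    rw [hg, Polynomial.finset_sum_coeff]
    simp only [Polynomial.coeff_C_mul, Polynomial.coeff_X_pow, mul_ite, mul_one, mul_zero]
    rw [Finset.sum_ite_eq]
    simp only [Finset.mem_range, Nat.lt_succ_iff]
  have hg0 : g ≠ 0 := by
    intro h0
    have := hcoeff n
    rw [h0, Polynomial.coeff_zero, if_pos le_rfl] at this
    exact hcn this.symm
  have hdeg : g.natDegree = n := by
    refine le_antisymm ?_ ?_
    · rw [Polynomial.natDegree_le_iff_coeff_eq_zero]
      intro N hN
      rw [hcoeff, if_neg (by omega)]
    · refine Polynomial.le_natDegree_of_ne_zero ?_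
      rw [hcoeff, if_pos le_rfl]
      exact hcn
  have hlead : g.leadingCoeff = c n := by
    rw [Polynomial.leadingCoeff, hdeg, hcoeff, if_pos le_rfl]
  set P : Polynomial Qb := ∏ j, (Polynomial.X - Polynomial.C (ψ j)) with hP
  have hP0 : P ≠ 0 := by
    rw [hP, Finset.prod_ne_zero_iff]
    intro j _
    exact Polynomial.X_sub_C_ne_zero _
  have hPr : P.roots = (Finset.univ.val.map ψ) := by
    rw [hP]
    have h1 : ∏ j, (Polynomial.X - Polynomial.C (ψ j)) =
        ((Finset.univ.val.map ψ).map (fun a => Polynomial.X - Polynomial.C a)).prod := by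
      rw [Multiset.map_map]
      rfl
    rw [h1, Polynomial.roots_multiset_prod_X_sub_C]
  have hle : g.roots ≤ P.roots := Polynomial.roots.le_of_dvd hP0 hdvd
  have hsplit : g = Polynomial.C (c n) *
      (g.roots.map (fun a => Polynomial.X - Polynomial.C a)).prod := by
    have h1 := IsAlgClosed.splits g
    have h2 := h1.eq_prod_roots
    rw [hlead] at h2
    exact h2
  have hcard : Multiset.card g.roots ≤ r := by
    have h1 := Multiset.card_le_card hle
    rw [hPr, Multiset.card_map] at h1
    simpa using h1
  -- comparison of the products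
  have hprod : (g.roots.map (fun a => max 1 (v a))).prod ≤ ∏ j, max 1 (v (ψ j)) := by
    obtain ⟨u, hu⟩ := Multiset.le_iff_exists_add.1 hle
    have h1 : ∏ j, max 1 (v (ψ j)) = (P.roots.map (fun a => max 1 (v a))).prod := by
      rw [hPr, Multiset.map_map]
      rfl
    rw [h1, hu, Multiset.map_add, Multiset.prod_add]
    have h2 : 1 ≤ (g.roots.map (fun a => max 1 (v a))).prod := by
      refine prod_ge_one _ ?_
      intro x hx
      obtain ⟨b, -, rfl⟩ := Multiset.mem_map.1 hx
      exact le_max_left _ _
    have h3 : 1 ≤ (u.map (fun a => max 1 (v a))).prod := by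
      refine prod_ge_one _ ?_
      intro x hx
      obtain ⟨b, -, rfl⟩ := Multiset.mem_map.1 hx
      exact le_max_left _ _
    nlinarith
  have hcj : ∀ j ≤ n, c j = c n *
      ((g.roots.map (fun a => Polynomial.X - Polynomial.C a)).prod).coeff j := by
    intro j hj
    have h1 := hcoeff j
    rw [if_pos hj, hsplit, Polynomial.coeff_C_mul] at h1
    exact h1.symm
  have hprod0 : 0 ≤ (g.roots.map (fun a => max 1 (v a))).prod := by
    have h2 : 1 ≤ (g.roots.map (fun a => max 1 (v a))).prod := by
      refine prod_ge_one _ ?_
      intro x hx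
      obtain ⟨b, -, rfl⟩ := Multiset.mem_map.1 hx
      exact le_max_left _ _
    linarith
  intro j hj
  have hvn : 0 ≤ v (c n) := apply_nonneg v _
  refine ⟨?_, ?_⟩
  · rw [hcj j hj, map_mul]
    have h1 := coeff_bound v g.roots j
    have h2 : (2 : ℝ) ^ (Multiset.card g.roots) ≤ 2 ^ r :=
      pow_le_pow_right₀ (by norm_num) hcard
    have h3 : (2 : ℝ) ^ (Multiset.card g.roots) * (g.roots.map (fun a => max 1 (v a))).prod ≤
        2 ^ r * ∏ j, max 1 (v (ψ j)) :=
      mul_le_mul h2 hprod hprod0 (by positivity)
    calc v (c n) * v (((g.roots.map (fun a => Polynomial.X - Polynomial.C a)).prod).coeff j)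
        ≤ v (c n) * (2 ^ r * ∏ j, max 1 (v (ψ j))) :=
          mul_le_mul_of_nonneg_left (h1.trans h3) hvn
      _ = _ := by ring
  · intro hv
    rw [hcj j hj, map_mul]
    have h1 := coeff_bound_na v hv g.roots j
    exact mul_le_mul_of_nonneg_left (h1.trans hprod) hvn

end Pool.Agent.H24.TX
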